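import Pool.Agent.V8H11.DE.Pyr

/-!
# Deterministic programs which make few wrong guesses

Evaluation of a dag `G` of in-degree two over `Fin k`: the input gives a value for every leaf and a
`k × k` table with entries in `Fin k` for every inner node; the value of an inner node is the entry of
its table at the values of its two children; the value of the root is asked for. For pyramids this
problem is in P = 2:multi-DPDA (it is even P-complete: the levels are the times of a cellular
automaton). A deterministic program with the set `S` of states (see `Pool.Agent.V8H11.DE.Prog`) is a
`k`-way branching program without any restriction; the configurations of a logarithmic space machine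
on the inputs of a given length form such a program with polynomially many states.

A query of the entry `(a, b)` of the table of `v` names the value `a` for the left and the value `b`
for the right child of `v`; an output names a value for the root. Known lower bounds are for programs
which never name a wrong value (thrifty programs) and are right on all inputs.
-/

set_option autoImplicit false

namespace Pool.Agent.Results.MP_4e849b_lc.FewWrongGuesses

open Pool.Agent.V8H11.DE

/-- (1) Let `G` be a dag with `N` nodes such that every pebbling of the root has at some time at least
`π` pebbles. The fraction of the inputs on which a program with the set `S` of states outputs the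
value of the root, names at most `p` wrong values of nodes not read before, and names at most `q`
wrong values of a node between a reading or right naming of this node and its next right naming, is at
most `3 |S| (N (q + 1) / k) ^ π + (p + 2) / (k - 1)`.
(2) For the pyramid with `h` levels one can take `π = h`, and `N` is at most `h (h + 1) / 2`.
(3) So for the pyramid with `h ≥ 2` levels and `h ^ 4 (q + 1) ≤ k`, this fraction is at most
`3 / h ^ h + (p + 2) / (k - 1)` for all programs with at most `h ^ h` states. -/
theorem result :
    (∀ (α : Type) (G : Dag α) (π k : ℕ) [NeZero k] (S : Type) [Fintype S] (B : Prog α k S),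
      2 ≤ k → PebblingBound G π → ∀ p q : ℕ,
        ((good B G p q).card : ℝ) ≤
          (3 * Fintype.card S * (G.nodes.card * (q + 1) / k : ℝ) ^ π + (p + 2) / (k - 1)) *
            Fintype.card (Inp G k)) ∧
    (∀ (h : ℕ) (hh : 0 < h), PebblingBound (pyramid h hh) h ∧
      2 * (pyramid h hh).nodes.card ≤ h * (h + 1)) ∧
    (∀ (h : ℕ) (hh : 2 ≤ h) (k : ℕ) [NeZero k] (S : Type) [Fintype S] (B : Prog (ℕ × ℕ) k S),
      Fintype.card S ≤ h ^ h → ∀ p q : ℕ, h ^ 4 * (q + 1) ≤ k →
          ((good B (pyramid h (by omega)) p q).card : ℝ) ≤
            (3 / (h : ℝ) ^ h + (p + 2) / (k - 1)) *
              Fintype.card (Inp (pyramid h (by omega)) k)) :=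
  ⟨fun _ _ _ _ _ _ _ B hk hπ _ _ => main B hk hπ,
    fun h hh => ⟨pyramid_pebbling h hh, pyramid_nodes h hh⟩,
    fun _ hh _ _ _ _ B hS _ _ hq => pyramid_exp B hh hq hS⟩

end Pool.Agent.Results.MP_4e849b_lc.FewWrongGuesses
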