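import Pool.Agent.V8H38.SH.Final

/-!
# Shallow circuits for what one-head pushdown automata do must have many hazards

The definitions used in the statement are in `Pool.Agent.V8H47.MH.Defs` (automata, `twoDPDA`),
`Pool.Agent.V8H38.RM.Defs` (the language `MCV`, patterns of words, `fill`),
`Pool.Agent.V8H38.HZ.Defs` (circuits, three-valued evaluation, `unknown`, `hazards`, `flips`,
`agree`) and `Pool.Agent.V8H38.SH.Defs` (`depth`).

`MCV` is the monotone circuit value problem; the inputs of a gate are given by two unary numbers.
Circuits are arbitrary circuits over AND, OR and NOT, and the depth counts AND gates and OR gates.
A circuit can also be evaluated if some input bits are unknown, in three-valued logic. It has a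
hazard at such an input if the output of this evaluation is unknown, although all completions of the
input give the same output.

Let the variables be switched on one after the other. `unknown` is the greatest number of disjoint
intervals of the order such that the output is unknown when the variables in the interval are
unknown, the earlier ones are one and the later ones are zero; `hazards` is the same for intervals
at which the circuit has a hazard.

* A one-head two-way deterministic pushdown automaton accepts `MCV`.
* There is a constant `a` such that for all `n` and all `t ≥ log n` there are a word of length at
  most `n ^ 3` with `n` variable constants, that is, a monotone circuit with `n` inputs, a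
  distribution of inputs and a distribution of orders of the variables such that no circuit of
  depth `t` (of any size) computes the function with probability more than
  `1 / 2 + (1 + H) t ^ a / n`, where `H` is its expected number of disjoint intervals with unknown
  output. If it computes the function for all inputs then it has at least `n / (2 t ^ a) - 2`
  disjoint hazards on average.
* `H` is at most `n` and at most the number of steps at which the output or a bit read by a NOT gate
  changes.

The languages in logarithmic space have circuits of depth `O(log ^ 2 n)`. So if `L = P` then such
circuits exist for the function, and all of them have `n / polylog n` disjoint hazards. There are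
circuits for the function, of polynomial size, without hazards, namely monotone circuits.

The proof: a lifting theorem of Raz and McKenzie for the index gadget and the pyramid pebbling
problem gives a function `g` of polylogarithmically many variables which has a monotone circuit of
small size and large monotone depth. Boosting gives hard distributions on the yes-instances and the
no-instances of `g`. The function is the OR of `n / polylog n` copies of `g`. One copy after the
other is turned into a random no-instance. For a fixed input `x`, the three-valued output on the
subcube between `x` and `y` is a monotone function of `y`, of depth at most the depth of the circuit.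
So a random yes-instance of the next copy is noticed with almost the same probability as a random
no-instance.
-/

namespace Pool.Agent.Results.MP_4e849b_lc.ShallowHazards

open Pool.Agent.V8H38.RM Pool.Agent.V8H38.HZ Pool.Agent.V8H47.MH

/-- The monotone circuit value problem is accepted by a one-head two-way deterministic pushdown
automaton and is hard on average, even for fixed circuits, for shallow circuits with few hazards. -/
theorem result : MCV ∈ twoDPDA 1 Letter ∧
    (∃ a : ℕ, ∀ n t : ℕ, 0 < n → 2 ≤ t → Nat.log 2 n ≤ t →
      ∃ p : List (Letter ⊕ Fin n), p.length ≤ n ^ 3 ∧
        p.filterMap Sum.getRight? = List.finRange n ∧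
        ∃ (D : (Fin n → Bool) → ℝ) (Q : Equiv.Perm (Fin n) → ℝ),
          (∀ x, 0 ≤ D x) ∧ ∑ x, D x = 1 ∧ (∀ π, 0 ≤ Q π) ∧ ∑ π, Q π = 1 ∧
          ∀ C : Circ n, C.depth ≤ t →
            C.agree D (fun x => fill p x ∈ MCV) ≤ 1 / 2 +
              (1 + ∑ π, Q π * (C.unknown Finset.univ (fun _ => false) π : ℝ)) *
                (t : ℝ) ^ a / n ∧
            ((∀ x, C.eval x = true ↔ fill p x ∈ MCV) →
              (n : ℝ) / (2 * (t : ℝ) ^ a) - 2 ≤
                ∑ π, Q π * (C.hazards Finset.univ (fun _ => false) π : ℝ))) ∧
    ∀ (n : ℕ) (C : Circ n) (E : Finset (Fin n)) (z : Fin n → Bool) (π : Equiv.Perm (Fin n)),
      C.unknown E z π ≤ E.card ∧ C.unknown E z π ≤ C.flips E z π := by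
  refine ⟨MCV_mem, ?_, fun n C E z π => ⟨unknown_le_card C E z π, unknown_le_flips C E z π⟩⟩
  obtain ⟨a, ha⟩ := Pool.Agent.V8H38.HZ.main_haz
  refine ⟨a, fun n t hn ht hlt => ?_⟩
  obtain ⟨p, h1, h2, D, Q, h3, h4, h5, h6, h7⟩ := ha n t hn ht hlt
  exact ⟨p, h1, h2, D, Q, h3, h4, h5, h6, fun C hd => h7 C hd⟩

end Pool.Agent.Results.MP_4e849b_lc.ShallowHazards
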