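import Pool.Agent.V8H47.MH.ContDefs
import Pool.Agent.V8H47.MH.Content

/-!
# A dichotomy for the contents of the pushdown store (deterministic automata)

The definitions used in the statement are in `Pool.Agent.V8H47.MH.Defs` (automata, `twoDFA`,
`twoDPDA`) and `Pool.Agent.V8H47.MH.ContDefs` (`PolyGrowth`, `twoDPDAIn`).

Let `R` be a regular language over the pushdown alphabet which contains the empty word. We only
allow deterministic two-way multihead pushdown automata all of whose store contents, read from
the bottom to the top, are in `R`. Let `g n` be the number of words of length `n` all of whose
prefixes are in `R`.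

* If `g` is bounded by a polynomial then these automata accept exactly the languages accepted by
  deterministic two-way multihead finite automata.
* Otherwise they accept, for each number `k` of heads, all the languages accepted by deterministic
  two-way `k`-head pushdown automata.

Idea. If `g` is not polynomially bounded then the automaton of `R` has two different cycles through
one state, and any store can be coded in `R`, symbol by symbol, with the top symbol kept in the
finite control. Otherwise all the strongly connected components of the automaton of `R` are cycles,
and a content is described by a bounded number of counters. Accepting runs can be chosen with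
polynomially bounded height, and a counter with polynomially bounded values is simulated by heads
which run through the reflected numeration of the tuples of positions.
-/

namespace Pool.Agent.Results.MP_4e849b_lc.StoreContents

open Pool.Agent.V8H47.MH

/-- The dichotomy for the contents of the store, deterministic case. -/
theorem result {Γ : Type} [Finite Γ] (R : Set (List Γ)) (hreg : Language.IsRegular R)
    (h0 : [] ∈ R) :
    (PolyGrowth R → ∀ α : Type, (⋃ k, twoDPDAIn R k α) = ⋃ k, twoDFA k α) ∧
    (¬ PolyGrowth R → ∀ (k : ℕ) (α : Type), twoDPDAIn R k α = twoDPDA k α) := by
  obtain ⟨h1, h2⟩ := content_dichotomy (R := R) hreg h0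
  constructor
  · intro hp α
    ext L
    simp only [Set.mem_iUnion]
    constructor
    · rintro ⟨k, M, hd, hM, rfl⟩
      obtain ⟨m, M', h3, h4⟩ := h2 hp α k M hM
      exact ⟨m, M', h3 hd, h4⟩
    · rintro ⟨k, M, hd, rfl⟩
      exact ⟨k, M.toPDA Γ, M.det_toPDA Γ hd, fa_contents h0 M, M.lang_toPDA Γ⟩
  · intro hp k α
    ext L
    constructor
    · rintro ⟨M, hd, _, rfl⟩
      exact ⟨Γ, inferInstance, M, hd, rfl⟩
    · rintro ⟨Δ, _, M, hd, rfl⟩
      obtain ⟨M', h3, h4, h5, _⟩ := h1 hp α (Fin k) Δ M
      exact ⟨M', h3 hd, h5, h4⟩

end Pool.Agent.Results.MP_4e849b_lc.StoreContents
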