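import Pool.Agent.V8H39.TV.Dim

/-!
# A store with small dimension, few reads and few errors

The definitions used in the statement are in `Pool.Agent.V8H39.SR.DDefs` (the alphabet `Sy`, patterns
of words and `fillBits`, the class `oneDPDA` of the languages of deterministic one-way pushdown
automata), `Pool.Agent.V8H47.MH.Defs` (automata, the class `twoDPDA 1` of the languages of one-head
two-way deterministic pushdown automata), `Pool.Agent.V8H39.SR.Defs` (nondeterministic machines
`Mach` with a pushdown store, `Answers`, `Path`), `Pool.Agent.V8H39.TV.DimDefs` (the dimension of a
computation, `AcceptsDim`) and `Pool.Agent.V8H39.TV.Defs` (turns, `AcceptsTurns`).

A machine whose store is not used, with polynomially many configurations, is the nonuniform form of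
nondeterministic logarithmic space. Multihead two-way pushdown automata are machines with a store
with polynomially many configurations (the contents of the store not counted). Each symbol that is
put on the store and taken from it later splits a computation in two parts (while the symbol is on
the store, and after it), so a computation is a binary tree, and its dimension is the Strahler number
of this tree. The dimension is `0` if nothing is taken from the store. A computation with at most
`t` turns (a turn is a step in which a symbol is taken from the store and the previous operation on
the store was to put a symbol on it) has dimension at most `log (t + 1) + 1`, so that all computations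
of polynomial length have dimension `O(log n)`; but also computations with many turns can have a
small dimension.

There is a deterministic context-free language `U` with the following property. For each `k` there
are a constant `C` and, for each `n`, a word `p n` of polynomial length in which `n` letters are
variable bits, each variable once and in this order, such that the following holds for all `n`, `E`
and `d` with `K ≤ log n`, where `K = C (E + 1) (d + 1)`. For exactly half of the inputs `x` the word
`p n` with the bits `x` is in `U`. Let `P` be any nondeterministic machine with a store, with at most
`n ^ E` configurations, in which the bits are read at most `k` times on average on every path from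
the start to acceptance (consistent or not; the bound for a bit does not depend on the path), and let
`w` be the number of the inputs `x` accepted by `P` such that `p n` with the bits `x` is not in `U`
(`c = true`). Then at most `2 ^ (n - E) + n ^ K * w / 2 ^ E` inputs are accepted by computations of
dimension at most `d`. The same holds with the complement of `U` (`c = false`).

In particular, with `n ^ E` configurations and `O(1)` reads per bit, and if at most a part
`1 / n ^ K` of the inputs is accepted wrongly, then the dimension has to be `Ω(log n / (E + 1))`, for
`U` and for its complement, whereas computations of polynomial length always have dimension
`O(log n)`, and a one-way deterministic pushdown automaton, which reads each bit once, decides `U`.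
The case `d = 0` is about machines without a store.

The proof. A computation of dimension `d` can be done part by part, the part of smaller dimension
first, such that at each time only `d + 1` parts are unfinished. This gives a program without a store
with `n ^ O((E + 1) (d + 1))` nodes in which each bit is read exactly as often as before. The word
describes a tree over the field with `2 ^ b` elements in which the value of an inner node is the
value of its block of bits plus the product of the values of the children, and `U` asks if the value
of the root is in a given half of the field. In a program without a store in which the bits are read
`O(1)` times on average the reads of some bits can be put in order by a Ramsey argument, so that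
there are sets `A` and `B` of bits in alternating subtrees along a path of the tree, such that the
program alternates only a few times between `A` and `B`, but the value of the root as a function of
`A` and `B` is an inner product, in a number of dimensions proportional to `log n`, of two vectors
that are spread over the whole space. The inputs accepted are covered by few products of sets, and a
constant part of each large product is wrong.
-/

namespace Pool.Agent.Results.MP_4e849b_lc.StoreDimension

open Finset Pool.Agent.V8H39.SR Pool.Agent.V8H47.MH

/-- A deterministic context-free language with exactly half of the inputs such that nondeterministic
machines with a store, with `n ^ E` configurations, that read the bits a bounded number of times on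
average, accept only few inputs by computations of dimension at most `d`, unless they accept a
polynomial part of the inputs wrongly; the same for the complement. Few turns imply a small
dimension. -/
theorem result : (∃ U ∈ oneDPDA Sy, U ∈ twoDPDA 1 Sy ∧
    ∀ k, ∃ (C : ℕ) (p : ∀ n, List (Sy ⊕ Fin n)),
    (∀ n, (p n).length ≤ (n + 2) ^ 5 ∧ (p n).filterMap Sum.getRight? = List.finRange n) ∧
    ∀ n E d, C * (E + 1) * (d + 1) ≤ Nat.log 2 n →
      2 * Nat.card {x : Fin n → Bool // fillBits (p n) x ∈ U} = 2 ^ n ∧
      ∀ (c : Bool) (P : Mach (Fin n)), Fintype.card P.Conf ≤ n ^ E →
      (∃ κ : Fin n → ℕ, ∑ v, κ v ≤ k * n ∧ ∀ L, P.Path L true → ∀ v, L.count v ≤ κ v) →
      2 ^ E * Nat.card {x // P.AcceptsDim d x} ≤ 2 ^ n + n ^ (C * (E + 1) * (d + 1)) *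
          Nat.card {x // P.Answers x true ∧ ¬ (fillBits (p n) x ∈ U ↔ c = true)}) ∧
    ∀ (n : ℕ) (P : Mach (Fin n)) (x : Fin n → Bool),
      (P.Answers x true ↔ ∃ d, P.AcceptsDim d x) ∧
      ∀ t, P.AcceptsTurns t x → P.AcceptsDim (Nat.log 2 (t + 1) + 1) x :=
  ⟨Pool.Agent.V8H39.TV.mainD, fun _ _ _ => ⟨Pool.Agent.V8H39.TV.answers_iff_dim, fun _ h =>
    Pool.Agent.V8H39.TV.acceptsDim_of_turns h⟩⟩

end Pool.Agent.Results.MP_4e849b_lc.StoreDimension
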